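import Pool.Agent.R651.CP.P_AS
import Pool.Agent.R651.CP.P_FB

/-!
# MP_8e4414_pr, Q1: the annealed free energy of the charged polymer is a limit

For every `d ≥ 2`, every admissible charge law and all `δ ≥ 0`, `β > 0` the sequence
`(1/n) log Z_n^{δ,β}` converges.

Idea of the proof.  With `g(ℓ) = E^δ[exp(-β Ω_ℓ²)]` one has `g ≤ 1` and `g(ℓ+1) ≥ κ g(ℓ)` for some
`κ > 0`, so changing `m` steps of a walk changes its weight by at most a factor `κ^m`.  Hence loops
can be inserted into loops, and far-apart loops can be brought together; so `k` closed loops of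
length `N` give a walk of length about `k (N+2)`, and closed loops are bounded by `exp(μ N)` with
`μ` the *liminf* of `(1/n) log Z_n` (normalised by the number of walks).  A walk of length `n` is cut
by a suitable translate of the hyperplanes `x_0 ∈ L ℤ`, `L = √n`, into at most `√n` pieces, each in
one slab of width `L`; the weight factorises over the slabs.  For one slab, `4m` disjoint copies of
the slab are arranged in a ring, so that the `4m` copies of the pieces close up to few loops; so the
`4m`-th power of the slab sum is bounded by loop sums, and the `4m`-th root costs only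
`exp(O(√n log n))` in total.
-/

set_option autoImplicit false

open MeasureTheory Filter Topology

namespace Pool.Agent.Results.MP_8e4414_pr.FreeEnergyLimit

/-- One step of simple random walk on `ℤ^d`: `(i, true)` is `+e_i` and `(i, false)` is `-e_i`. -/
def step {d : ℕ} (s : Fin d × Bool) : Fin d → ℤ :=
  fun i => if i = s.1 then (if s.2 then 1 else -1) else 0

/-- The position `S_{i+1} = step (s 0) + ... + step (s i)` (here `i` runs over `0, ..., n-1`) of the
walk started at the origin with the steps `s`. -/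
def walk {d n : ℕ} (s : Fin n → Fin d × Bool) (i : Fin n) : Fin d → ℤ :=
  ∑ j with j ≤ i, step (s j)

/-- The energy `∑_{x ∈ ℤ^d} (∑_{i=1}^n ω_i 1{S_i = x})²`. -/
noncomputable def energy {d n : ℕ} (s : Fin n → Fin d × Bool) (ω : Fin n → ℝ) : ℝ :=
  ∑' x : Fin d → ℤ, (∑ i, if walk s i = x then ω i else 0) ^ 2

/-- The tilted charge law `ℙ^δ`, with density `e^{δ x} / M(δ)` with respect to `μ`. -/
noncomputable def tiltedLaw (μ : Measure ℝ) (δ : ℝ) : Measure ℝ := μ.tilted (fun x => δ * x)

/-- The annealed partition function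
`Z_n^{δ,β} = (E^δ × E)[exp(-β ∑_x (∑_{i=1}^n ω_i 1{S_i = x})²)]`: the integral over the charges
`ω_1, ..., ω_n`, independent with the law `ℙ^δ`, of the mean over the `(2d)^n` step sequences. -/
noncomputable def Zn (d : ℕ) (μ : Measure ℝ) (δ β : ℝ) (n : ℕ) : ℝ :=
  ∫ ω : Fin n → ℝ, ((2 * d : ℝ) ^ n)⁻¹ * ∑ s : Fin n → Fin d × Bool, Real.exp (-β * energy s ω)
    ∂(Measure.pi (fun _ : Fin n => tiltedLaw μ δ))

/-- **MP_8e4414_pr, Q1 (affirmative).** For every `d ≥ 2`, every admissible charge law `μ`, every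
`δ ≥ 0` and `β > 0`, the limit of `(1/n) log Z_n^{δ,β}` exists (as a real number). -/
theorem result (d : ℕ) (hd : 2 ≤ d) (μ : Measure ℝ) [IsProbabilityMeasure μ]
    (hM : ∀ t : ℝ, Integrable (fun x => Real.exp (t * x)) μ)
    (hmean : ∫ x, x ∂μ = 0) (hvar : ∫ x, x ^ 2 ∂μ = 1)
    (δ β : ℝ) (hδ : 0 ≤ δ) (hβ : 0 < β) :
    (∀ n : ℕ, 0 < Zn d μ δ β n) ∧
      ∃ F : ℝ, Tendsto (fun n : ℕ => Real.log (Zn d μ δ β n) / n) atTop (𝓝 F) := by
  obtain ⟨d, rfl⟩ : ∃ e, d = e + 2 := ⟨d - 2, by omega⟩
  have hprob : IsProbabilityMeasure (R651.CP.tilt μ δ) := isProbabilityMeasure_tilted (hM δ)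
  have hZ : ∀ n, Zn (d + 2) μ δ β n = R651.CP.Z (d + 2) (R651.CP.gg μ δ β) n := by
    intro n
    rw [← R651.CP.Zf_eq (d + 2) μ δ β hβ n]
    rfl
  obtain ⟨hpos, -⟩ := R651.CP.t_charge μ δ β hδ hβ hM hmean hvar
  constructor
  · intro n
    rw [hZ]
    unfold R651.CP.Z
    refine mul_pos (by positivity) (Finset.sum_pos (fun s _ => Finset.prod_pos (fun x _ => hpos _))
      ⟨fun _ => (0, true), Finset.mem_univ _⟩)
  · simp only [hZ]
    exact R651.CP.t_main d μ δ β hδ hβ hM hmean hvar

end Pool.Agent.Results.MP_8e4414_pr.FreeEnergyLimit
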